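import Pool.Graph.R_seed8.Helper741.Garside

/-!
Walls crossed by simple elements of an Artin group.
-/

set_option autoImplicit false
set_option linter.unusedSectionVars false

namespace Pool.Agent.H42.FS

open Pool.Agent.Helper741 CoxeterSystem TExt

variable {B : Type*} {M : CoxeterMatrix B} [Fintype B] [DecidableEq B]
variable {W : Type*} [Group W] (cs : CoxeterSystem M W)

/-- the crossing cocycle -/
noncomputable def cr : Artin M →* TExt ℤ W := cocyc cs (lenHom M)

lemma cr_gen (i : B) : cr cs (Artin.gen M i) = el 1 (cs.simple i) := by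
  rw [cr, cocyc_gen, lenHom_gen]
  rfl

lemma cr_w (x : Artin M) : (cr cs x).w = Artin.toCox cs x := cocyc_w cs _ x

lemma toCox_word (ω : List B) : Artin.toCox cs ((ω.map (Artin.gen M)).prod) = cs.wordProd ω := by
  induction ω with
  | nil => simp
  | cons i ω ih => rw [List.map_cons, List.prod_cons, map_mul, ih, Artin.toCox_gen, cs.wordProd_cons]

lemma toCox_sec (w : W) : Artin.toCox cs (sec cs w) = w := by
  rw [sec, toCox_word, rword_prod]

open Classical in
lemma cr_word (ω : List B) (t : W) :
    (cr cs ((ω.map (Artin.gen M)).prod)).v t = ((cs.leftInvSeq ω).count t : ℤ) := by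
  induction ω generalizing t with
  | nil => simp
  | cons i ω ih =>
    rw [List.map_cons, List.prod_cons, map_mul, mul_v, Finsupp.add_apply, cr_gen, el_v, el_w,
      act_apply, ih, leftInvSeq, List.count_cons, Finsupp.single_apply]
    have h : List.count t (List.map (MulAut.conj (cs.simple i)) (cs.leftInvSeq ω)) =
        List.count ((cs.simple i)⁻¹ * t * cs.simple i) (cs.leftInvSeq ω) := by
      have h1 : t = MulAut.conj (cs.simple i) ((cs.simple i)⁻¹ * t * cs.simple i) := by
        simp only [MulAut.conj_apply]; group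
      conv_lhs => rw [h1]
      exact List.count_map_of_injective _ _ (MulAut.conj (cs.simple i)).injective _
    rw [h]
    push_cast
    by_cases h1 : cs.simple i = t
    · simp [h1]; ring
    · simp [h1]

/-- mod two the crossing numbers only depend on the image in the Coxeter group -/
lemma invc_eq (x : Artin M) (t : W) :
    (invc cs (Artin.toCox cs x)).v t = (((cr cs x).v t : ℤ) : ZMod 2) := by
  classical
  induction x using Artin.induction generalizing t with
  | one => simp
  | gen i =>
    rw [Artin.toCox_gen, invc_simple, cr_gen, el_v, el_v, Finsupp.single_apply,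
      Finsupp.single_apply]
    split_ifs <;> simp
  | mul x y hx hy =>
    rw [map_mul, map_mul, map_mul, mul_v, mul_v, Finsupp.add_apply, Finsupp.add_apply, act_apply,
      act_apply, invc_w, cr_w, hx, hy]
    push_cast
    ring
  | inv x hx =>
    rw [map_inv, map_inv, map_inv, inv_v, inv_v, Finsupp.neg_apply, Finsupp.neg_apply, act_apply,
      act_apply, invc_w, cr_w, hx]
    push_cast
    ring

lemma invc_refl {t : W} (ht : cs.IsReflection t) : (invc cs t).v t = 1 := by
  classical
  obtain ⟨u, i, rfl⟩ := ht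
  rw [(invc cs).map_mul, (invc cs).map_mul, (invc cs).map_inv, mul_v, mul_v, inv_v, mul_w,
    invc_simple, invc_w, el_v, el_w]
  simp only [Finsupp.add_apply, act_apply, Finsupp.neg_apply, Finsupp.single_apply, invc_w]
  have h1 : u⁻¹ * (u * cs.simple i * u⁻¹) * u = cs.simple i := by group
  have h2 : ((u⁻¹)⁻¹ * ((u * cs.simple i)⁻¹ * (u * cs.simple i * u⁻¹) * (u * cs.simple i)) * u⁻¹) =
      u * cs.simple i * u⁻¹ := by group
  rw [h1, h2, if_pos rfl]
  ring

/-- the inversions are given by the cocycle -/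
lemma leftInversion_iff (w t : W) :
    cs.IsLeftInversion w t ↔ cs.IsReflection t ∧ (invc cs w).v t ≠ 0 := by
  have key : ∀ w : W, (invc cs w).v t ≠ 0 → cs.length (t * w) < cs.length w := by
    intro w h
    have h1 := mem_leftInvSeq_of_invc cs (rword cs w) t (by rwa [rword_prod])
    have h2 := (cs.isLeftInversion_of_mem_leftInvSeq (rword_reduced cs w) h1).2
    rwa [rword_prod] at h2
  constructor
  · rintro ⟨h1, h2⟩
    refine ⟨h1, fun h0 => ?_⟩
    have h3 := key (t * w) (by
      rw [(invc cs).map_mul, mul_v, Finsupp.add_apply, invc_refl cs h1, act_apply, invc_w]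
      have : t⁻¹ * t * t = t := by group
      rw [this, h0, add_zero]
      exact one_ne_zero)
    rw [← mul_assoc, h1.mul_self, one_mul] at h3
    omega
  · rintro ⟨h1, h2⟩
    exact ⟨h1, key w h2⟩

open Classical in
/-- the wall `t` separates `p` and `q` -/
noncomputable def sp (t p q : W) : ℤ :=
  if (cs.IsLeftInversion p t ↔ cs.IsLeftInversion q t) then 0 else 1

lemma sp_self (t p : W) : sp cs t p p = 0 := by simp [sp]

lemma sp_comm (t p q : W) : sp cs t p q = sp cs t q p := by
  unfold sp
  congr 1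
  exact propext Iff.comm

/-- the simple element from `p` to `q` -/
noncomputable def e (p q : W) : Artin M := sec cs (p⁻¹ * q)

lemma toCox_e (p q : W) : Artin.toCox cs (e cs p q) = p⁻¹ * q := toCox_sec cs _

lemma sec_one : sec cs 1 = 1 := by
  have := sec_eq cs [] (by simp [CoxeterSystem.IsReduced])
  simpa using this

lemma e_self (p : W) : e cs p p = 1 := by rw [e, inv_mul_cancel, sec_one]

lemma cr_sec (w t : W) : (cr cs (sec cs w)).v t = 0 ∨ (cr cs (sec cs w)).v t = 1 := by
  classical
  rw [sec, cr_word]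
  have h := (rword_reduced cs w).nodup_leftInvSeq
  rw [List.nodup_iff_count_le_one] at h
  have := h t
  omega

lemma cr_nonrefl (w t : W) (ht : ¬ cs.IsReflection t) : (cr cs (sec cs w)).v t = 0 := by
  classical
  rw [sec, cr_word, List.count_eq_zero_of_not_mem, Nat.cast_zero]
  exact fun h => ht (cs.isReflection_of_mem_leftInvSeq _ h)

lemma refl_conj_iff (p t : W) : cs.IsReflection (p⁻¹ * t * p) ↔ cs.IsReflection t := by
  have := cs.isReflection_conj_iff p⁻¹ t
  rwa [inv_inv] at this

/-- crossing numbers of simple elements -/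
lemma cr_e (t p q : W) : (cr cs (e cs p q)).v (p⁻¹ * t * p) = sp cs t p q := by
  by_cases ht : cs.IsReflection t
  · have h1 : (invc cs q).v t = (invc cs p).v t + (((cr cs (e cs p q)).v (p⁻¹ * t * p) : ℤ) : ZMod 2) := by
      have := invc_eq cs (e cs p q) (p⁻¹ * t * p)
      rw [toCox_e] at this
      rw [← this]
      conv_lhs => rw [show q = p * (p⁻¹ * q) by group]
      rw [(invc cs).map_mul, mul_v, Finsupp.add_apply, act_apply, invc_w]
    have hp := leftInversion_iff cs p t
    have hq := leftInversion_iff cs q t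
    have hz : ∀ a : ZMod 2, a = 0 ∨ a = 1 := by decide
    unfold sp
    rw [hp, hq]
    simp only [ht, true_and]
    rcases cr_sec cs (p⁻¹ * q) (p⁻¹ * t * p) with h2 | h2
    · rw [← e] at h2
      rw [h2] at h1 ⊢
      rw [Int.cast_zero, add_zero] at h1
      rw [h1, if_pos Iff.rfl]
    · rw [← e] at h2
      rw [h2] at h1 ⊢
      rw [Int.cast_one] at h1
      rw [if_neg]
      rcases hz ((invc cs p).v t) with h3 | h3 <;> rw [h1, h3] <;> decide
  · have h1 : ¬ cs.IsReflection (p⁻¹ * t * p) := by rwa [refl_conj_iff]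
    rw [e, cr_nonrefl cs _ _ h1]
    have hp : ¬ cs.IsLeftInversion p t := fun h => ht h.1
    have hq : ¬ cs.IsLeftInversion q t := fun h => ht h.1
    simp [sp, hp, hq]

lemma cr_e_inv (t p q : W) : (cr cs (e cs q p)⁻¹).v (p⁻¹ * t * p) = - sp cs t p q := by
  rw [(cr cs).map_inv, inv_v, Finsupp.neg_apply, act_apply, cr_w, toCox_e]
  have : (q⁻¹ * p)⁻¹⁻¹ * (p⁻¹ * t * p) * (q⁻¹ * p)⁻¹ = q⁻¹ * t * q := by group
  rw [this, cr_e, sp_comm]

/-- crossing numbers of a product -/
lemma cr_mul (x y : Artin M) (t p : W) :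
    (cr cs (x * y)).v (p⁻¹ * t * p) = (cr cs x).v (p⁻¹ * t * p) +
      (cr cs y).v ((p * Artin.toCox cs x)⁻¹ * t * (p * Artin.toCox cs x)) := by
  rw [(cr cs).map_mul, mul_v, Finsupp.add_apply, act_apply, cr_w]
  congr 2
  group

lemma sec_simple (s : B) : sec cs (cs.simple s) = Artin.gen M s := by
  have := sec_eq cs [s] (by simp [CoxeterSystem.IsReduced])
  simpa using this

lemma sp_adj (t q : W) (s : B) [Decidable (t = q * cs.simple s * q⁻¹)] :
    sp cs t q (q * cs.simple s) = if t = q * cs.simple s * q⁻¹ then 1 else 0 := by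
  classical
  rw [← cr_e, e, inv_mul_cancel_left, sec_simple, cr_gen, el_v, Finsupp.single_apply]
  have : (cs.simple s = q⁻¹ * t * q) ↔ t = q * cs.simple s * q⁻¹ := by
    constructor
    · intro h; rw [h]; group
    · intro h; rw [h]; group
  simp only [this]

lemma sp_adj_self (q : W) (s : B) : sp cs (q * cs.simple s * q⁻¹) q (q * cs.simple s) = 1 := by
  classical
  rw [sp_adj, if_pos rfl]

/-- a step changes the side for its own wall only -/
lemma side_step (t q : W) (s : B) :
    (cs.IsLeftInversion q t ↔ cs.IsLeftInversion (q * cs.simple s) t) ↔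
      t ≠ q * cs.simple s * q⁻¹ := by
  classical
  have h := sp_adj cs t q s
  unfold sp at h
  split_ifs at h with h1 h2 h3
  · omega
  · exact ⟨fun _ => h2, fun _ => h1⟩
  · exact ⟨fun h => absurd h h1, fun h => absurd h3 h⟩
  · omega

lemma e_step_up (p q : W) (s : B) (h : cs.length (p⁻¹ * q) < cs.length (p⁻¹ * q * cs.simple s)) :
    e cs p (q * cs.simple s) = e cs p q * Artin.gen M s := by
  rw [e, e, ← mul_assoc, sec_mul_simple cs _ _ h]

lemma sp_of_up (p q : W) (s : B) (h : cs.length (p⁻¹ * q) < cs.length (p⁻¹ * q * cs.simple s)) :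
    sp cs (q * cs.simple s * q⁻¹) p q = 0 := by
  have h1 := congrArg (fun x => (cr cs x).v (p⁻¹ * (q * cs.simple s * q⁻¹) * p)) (e_step_up cs p q s h)
  simp only [cr_mul, cr_e, toCox_e, mul_inv_cancel_left] at h1
  have h2 := cr_e cs (q * cs.simple s * q⁻¹) q (q * cs.simple s)
  rw [e, inv_mul_cancel_left, sec_simple] at h2
  rw [h2, sp_adj_self] at h1
  have h3 : sp cs (q * cs.simple s * q⁻¹) p (q * cs.simple s) ≤ 1 := by
    unfold sp; split_ifs <;> omega
  have h4 : 0 ≤ sp cs (q * cs.simple s * q⁻¹) p q := by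
    unfold sp; split_ifs <;> omega
  omega

lemma length_iff (p q : W) (s : B) :
    cs.length (p⁻¹ * q) < cs.length (p⁻¹ * q * cs.simple s) ↔
      sp cs (q * cs.simple s * q⁻¹) p q = 0 := by
  refine ⟨sp_of_up cs p q s, fun h => ?_⟩
  by_contra h1
  have h2 : cs.length (p⁻¹ * (q * cs.simple s)) <
      cs.length (p⁻¹ * (q * cs.simple s) * cs.simple s) := by
    rw [← mul_assoc, cs.simple_mul_simple_cancel_right]
    rcases cs.length_mul_simple (p⁻¹ * q) s with h3 | h3 <;> omega
  have h3 := sp_of_up cs p (q * cs.simple s) s h2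
  have h4 : (q * cs.simple s) * cs.simple s * (q * cs.simple s)⁻¹ = q * cs.simple s * q⁻¹ := by
    rw [cs.simple_mul_simple_cancel_right, mul_inv_rev, cs.inv_simple, mul_assoc]
  rw [h4] at h3
  have h5 := sp_adj_self cs q s
  unfold sp at h h3 h5
  split_ifs at h h3 h5 <;> first | omega | tauto

/-- extension of a simple element by a step away -/
lemma e_right (p q : W) (s : B) (h : sp cs (q * cs.simple s * q⁻¹) p q = 0) :
    e cs p (q * cs.simple s) = e cs p q * Artin.gen M s :=
  e_step_up cs p q s ((length_iff cs p q s).mpr h)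

lemma e_left (p q : W) (s : B) (h : sp cs (q * cs.simple s * q⁻¹) p q = 0) :
    e cs (q * cs.simple s) p = Artin.gen M s * e cs q p := by
  have h1 := (length_iff cs p q s).mpr h
  rw [e, e, mul_inv_rev, cs.inv_simple, mul_assoc, sec_simple_mul]
  rw [← cs.length_inv (q⁻¹ * p), ← cs.length_inv (cs.simple s * (q⁻¹ * p))]
  simpa [mul_assoc] using h1

/-- there is a step towards any other chamber -/
lemma exists_step (p q : W) (h : p ≠ q) :
    ∃ s : B, sp cs (q * cs.simple s * q⁻¹) p q = 1 ∧
      cs.length (p⁻¹ * (q * cs.simple s)) < cs.length (p⁻¹ * q) := by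
  have h1 : p⁻¹ * q ≠ 1 := by
    intro h2
    exact h (inv_mul_eq_one.mp h2)
  obtain ⟨s, hs⟩ := cs.exists_rightDescent_of_ne_one h1
  have hs' : cs.length (p⁻¹ * q * cs.simple s) < cs.length (p⁻¹ * q) := hs
  refine ⟨s, ?_, by rwa [← mul_assoc]⟩
  have h2 : sp cs (q * cs.simple s * q⁻¹) p q ≠ 0 := by
    rw [Ne, ← length_iff]
    omega
  unfold sp at h2 ⊢
  split_ifs at h2 ⊢
  · exact absurd rfl h2
  · rfl

end Pool.Agent.H42.FS
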