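import Pool.Agent.H42.FS.Base

/-!
Products of four simple elements.
-/

set_option autoImplicit false
set_option linter.unusedSectionVars false

namespace Pool.Agent.H42.FS

open Pool.Agent.Helper741 CoxeterSystem TExt

variable {B : Type*} {M : CoxeterMatrix B} [Fintype B] [DecidableEq B]
variable {W : Type*} [Group W] (cs : CoxeterSystem M W)

/-- either both up or both down: moving a corner of a pair with opposite signs -/
lemma move_right (p p' q : W) (s : B)
    (h : sp cs (q * cs.simple s * q⁻¹) p q = sp cs (q * cs.simple s * q⁻¹) p' q) :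
    e cs p' (q * cs.simple s) * (e cs p (q * cs.simple s))⁻¹ =
      e cs p' q * (e cs p q)⁻¹ := by
  have hcase : sp cs (q * cs.simple s * q⁻¹) p q = 0 ∨ sp cs (q * cs.simple s * q⁻¹) p q = 1 := by
    unfold sp; split_ifs <;> simp
  rcases hcase with h0 | h0
  · rw [e_right cs p q s h0, e_right cs p' q s (by rw [← h, h0])]
    group
  · have h4 : (q * cs.simple s) * cs.simple s * (q * cs.simple s)⁻¹ = q * cs.simple s * q⁻¹ := by
      rw [cs.simple_mul_simple_cancel_right, mul_inv_rev, cs.inv_simple, mul_assoc]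
    have h5 := sp_adj_self cs q s
    have h1 : ∀ r, sp cs (q * cs.simple s * q⁻¹) r q = 1 →
        sp cs ((q * cs.simple s) * cs.simple s * (q * cs.simple s)⁻¹) r (q * cs.simple s) = 0 := by
      intro r hr
      rw [h4]
      unfold sp at hr h5 ⊢
      split_ifs at hr h5 ⊢ <;> first | omega | tauto
    have h2 := e_right cs p (q * cs.simple s) s (h1 p h0)
    have h3 := e_right cs p' (q * cs.simple s) s (h1 p' (by rw [← h, h0]))
    rw [cs.simple_mul_simple_cancel_right] at h2 h3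
    rw [h2, h3]
    group

/-- moving a corner between two edges of the same direction -/
lemma move_mid (p p' q : W) (s : B)
    (h : sp cs (q * cs.simple s * q⁻¹) p q + sp cs (q * cs.simple s * q⁻¹) p' q = 1) :
    e cs p (q * cs.simple s) * e cs (q * cs.simple s) p' = e cs p q * e cs q p' := by
  have h4 : (q * cs.simple s) * cs.simple s * (q * cs.simple s)⁻¹ = q * cs.simple s * q⁻¹ := by
    rw [cs.simple_mul_simple_cancel_right, mul_inv_rev, cs.inv_simple, mul_assoc]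
  have h5 := sp_adj_self cs q s
  have h1 : ∀ r, sp cs (q * cs.simple s * q⁻¹) r q = 1 →
      sp cs ((q * cs.simple s) * cs.simple s * (q * cs.simple s)⁻¹) r (q * cs.simple s) = 0 := by
    intro r hr
    rw [h4]
    unfold sp at hr h5 ⊢
    split_ifs at hr h5 ⊢ <;> first | omega | tauto
  have hcase : sp cs (q * cs.simple s * q⁻¹) p q = 0 ∨ sp cs (q * cs.simple s * q⁻¹) p q = 1 := by
    unfold sp; split_ifs <;> simp
  rcases hcase with h0 | h0
  · have h6 : sp cs (q * cs.simple s * q⁻¹) p' q = 1 := by omega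
    have h3 := e_left cs p' (q * cs.simple s) s (h1 p' h6)
    rw [cs.simple_mul_simple_cancel_right] at h3
    rw [e_right cs p q s h0, h3]
    group
  · have h6 : sp cs (q * cs.simple s * q⁻¹) p' q = 0 := by omega
    have h3 := e_right cs p (q * cs.simple s) s (h1 p h0)
    rw [cs.simple_mul_simple_cancel_right] at h3
    rw [e_left cs p' q s h6, h3]
    group

/-- the walls other than the one crossed do not see the step -/
lemma sp_step (t p q : W) (s : B) (ht : t ≠ q * cs.simple s * q⁻¹) :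
    sp cs t p (q * cs.simple s) = sp cs t p q := by
  have h := (side_step cs t q s).mpr ht
  unfold sp
  rw [← h]

lemma sp_step_self (p q : W) (s : B) :
    sp cs (q * cs.simple s * q⁻¹) p (q * cs.simple s) =
      1 - sp cs (q * cs.simple s * q⁻¹) p q := by
  have h := sp_adj_self cs q s
  unfold sp at h ⊢
  split_ifs at h ⊢ <;> first | omega | tauto

/-- alternating signs -/
theorem coreA (n : ℕ) : ∀ p₀ p₁ p₂ p₃ : W, cs.length (p₁⁻¹ * p₃) = n →
    (∀ t, sp cs t p₀ p₁ - sp cs t p₂ p₁ + sp cs t p₂ p₃ - sp cs t p₀ p₃ = 0) →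
    e cs p₀ p₁ * (e cs p₂ p₁)⁻¹ * e cs p₂ p₃ * (e cs p₀ p₃)⁻¹ = 1 := by
  induction n using Nat.strong_induction_on with
  | _ n ih =>
  intro p₀ p₁ p₂ p₃ hn h
  by_cases h13 : p₁ = p₃
  · subst h13
    group
  obtain ⟨s, hs, hl⟩ := exists_step cs p₁ p₃ h13
  have key : sp cs (p₃ * cs.simple s * p₃⁻¹) p₀ p₃ = sp cs (p₃ * cs.simple s * p₃⁻¹) p₂ p₃ := by
    have := h (p₃ * cs.simple s * p₃⁻¹)
    unfold sp at this hs ⊢
    split_ifs at this hs ⊢ <;> first | omega | tauto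
  have h1 := ih _ (hn ▸ hl) p₀ p₁ p₂ (p₃ * cs.simple s) rfl (by
    intro t
    by_cases ht : t = p₃ * cs.simple s * p₃⁻¹
    · subst ht
      have h2 := sp_step_self cs p₀ p₃ s
      have h3 := sp_step_self cs p₂ p₃ s
      have h4 := h (p₃ * cs.simple s * p₃⁻¹)
      omega
    · rw [sp_step cs t p₂ p₃ s ht, sp_step cs t p₀ p₃ s ht]
      exact h t)
  rw [mul_assoc, move_right cs p₀ p₂ p₃ s key, ← mul_assoc] at h1
  exact h1

/-- two positive edges against two -/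
theorem coreB (n : ℕ) : ∀ p₀ p₁ p₂ p₃ : W, cs.length (p₁⁻¹ * p₃) = n →
    (∀ t, sp cs t p₀ p₁ + sp cs t p₁ p₂ = sp cs t p₀ p₃ + sp cs t p₃ p₂) →
    e cs p₀ p₁ * e cs p₁ p₂ = e cs p₀ p₃ * e cs p₃ p₂ := by
  induction n using Nat.strong_induction_on with
  | _ n ih =>
  intro p₀ p₁ p₂ p₃ hn h
  by_cases h13 : p₁ = p₃
  · subst h13
    rfl
  obtain ⟨s, hs, hl⟩ := exists_step cs p₁ p₃ h13
  have key : sp cs (p₃ * cs.simple s * p₃⁻¹) p₀ p₃ + sp cs (p₃ * cs.simple s * p₃⁻¹) p₂ p₃ = 1 := by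
    have := h (p₃ * cs.simple s * p₃⁻¹)
    unfold sp at this hs ⊢
    split_ifs at this hs ⊢ <;> first | omega | tauto
  have h1 := ih _ (hn ▸ hl) p₀ p₁ p₂ (p₃ * cs.simple s) rfl (by
    intro t
    rw [sp_comm cs t (p₃ * cs.simple s) p₂]
    by_cases ht : t = p₃ * cs.simple s * p₃⁻¹
    · subst ht
      have h2 := sp_step_self cs p₀ p₃ s
      have h3 := sp_step_self cs p₂ p₃ s
      have h4 := h (p₃ * cs.simple s * p₃⁻¹)
      rw [sp_comm cs _ p₃ p₂] at h4
      omega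
    · rw [sp_step cs t p₂ p₃ s ht, sp_step cs t p₀ p₃ s ht, sp_comm cs t p₂ p₃]
      exact h t)
  rw [h1, move_mid cs p₀ p₂ p₃ s key]

/-- no wall crossed twice -/
theorem core2 (p₀ p₁ p₂ : W) (h : ∀ t, sp cs t p₀ p₁ + sp cs t p₁ p₂ = sp cs t p₀ p₂) :
    e cs p₀ p₁ * e cs p₁ p₂ = e cs p₀ p₂ := by
  have := coreB cs _ p₀ p₁ p₂ p₀ rfl (by
    intro t
    rw [h t, sp_self, zero_add])
  rwa [e_self, one_mul] at this

theorem coreC (p₀ p₁ p₂ p₃ : W)
    (h : ∀ t, sp cs t p₀ p₁ + sp cs t p₁ p₂ + sp cs t p₂ p₃ = sp cs t p₀ p₃) :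
    e cs p₀ p₁ * e cs p₁ p₂ * e cs p₂ p₃ = e cs p₀ p₃ := by
  rw [core2 cs p₀ p₁ p₂, core2 cs p₀ p₂ p₃]
  · intro t
    have := h t
    unfold sp at this ⊢
    split_ifs at this ⊢ <;> first | omega | tauto
  · intro t
    have := h t
    unfold sp at this ⊢
    split_ifs at this ⊢ <;> first | omega | tauto

lemma eq_of_sp (p q : W) (h : ∀ t, sp cs t p q = 0) : p = q := by
  by_contra hpq
  obtain ⟨s, hs, -⟩ := exists_step cs p q hpq
  rw [h] at hs
  omega

/-- an edge with a sign -/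
noncomputable def se (b : Bool) (p q : W) : Artin M :=
  if b then e cs p q else (e cs q p)⁻¹

/-- a sign -/
def sg (b : Bool) : ℤ := if b then 1 else -1

lemma toCox_se (b : Bool) (p q : W) : Artin.toCox cs (se cs b p q) = p⁻¹ * q := by
  unfold se
  cases b
  · simp only [Bool.false_eq_true, if_false, map_inv, toCox_e]
    group
  · simp [toCox_e]

lemma cr_se (b : Bool) (t p q : W) :
    (cr cs (se cs b p q)).v (p⁻¹ * t * p) = sg b * sp cs t p q := by
  unfold se sg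
  cases b
  · simp only [Bool.false_eq_true, if_false, cr_e_inv]
    ring
  · simp [cr_e]

lemma cr_polygon (b₀ b₁ b₂ b₃ : Bool) (p₀ p₁ p₂ p₃ t : W) :
    (cr cs (se cs b₀ p₀ p₁ * se cs b₁ p₁ p₂ * se cs b₂ p₂ p₃ * se cs b₃ p₃ p₀)).v
        (p₀⁻¹ * t * p₀) =
      sg b₀ * sp cs t p₀ p₁ + sg b₁ * sp cs t p₁ p₂ + sg b₂ * sp cs t p₂ p₃ +
        sg b₃ * sp cs t p₃ p₀ := by
  rw [cr_mul, cr_mul, cr_mul]
  simp only [map_mul, toCox_se]
  have e1 : p₀ * (p₀⁻¹ * p₁) = p₁ := by group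
  have e2 : p₀ * (p₀⁻¹ * p₁ * (p₁⁻¹ * p₂)) = p₂ := by group
  have e3 : p₀ * (p₀⁻¹ * p₁ * (p₁⁻¹ * p₂) * (p₂⁻¹ * p₃)) = p₃ := by group
  rw [e1, e2, e3, cr_se, cr_se, cr_se, cr_se]

/-- **Polygons with four sides.** -/
theorem polygon (b₀ b₁ b₂ b₃ : Bool) (p₀ p₁ p₂ p₃ : W) :
    se cs b₀ p₀ p₁ * se cs b₁ p₁ p₂ * se cs b₂ p₂ p₃ * se cs b₃ p₃ p₀ = 1 ↔
      ∀ t, sg b₀ * sp cs t p₀ p₁ + sg b₁ * sp cs t p₁ p₂ + sg b₂ * sp cs t p₂ p₃ +
        sg b₃ * sp cs t p₃ p₀ = 0 := by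
  constructor
  · intro h t
    rw [← cr_polygon, h]
    simp
  · intro h
    have hA := fun p₀ p₁ p₂ p₃ => coreA cs _ p₀ p₁ p₂ p₃ rfl
    have hB := fun p₀ p₁ p₂ p₃ => coreB cs _ p₀ p₁ p₂ p₃ rfl
    have all : (∀ t, sp cs t p₀ p₁ + sp cs t p₁ p₂ + sp cs t p₂ p₃ + sp cs t p₃ p₀ = 0) →
        p₁ = p₀ ∧ p₂ = p₀ ∧ p₃ = p₀ := by
      intro h
      have nn : ∀ t p q, 0 ≤ sp cs t p q := by
        intro t p q
        unfold sp; split_ifs <;> omega
      have h1 : p₀ = p₁ := eq_of_sp cs _ _ (fun t => by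
        have := h t; have := nn t p₀ p₁; have := nn t p₁ p₂; have := nn t p₂ p₃
        have := nn t p₃ p₀; omega)
      have h2 : p₁ = p₂ := eq_of_sp cs _ _ (fun t => by
        have := h t; have := nn t p₀ p₁; have := nn t p₁ p₂; have := nn t p₂ p₃
        have := nn t p₃ p₀; omega)
      have h3 : p₂ = p₃ := eq_of_sp cs _ _ (fun t => by
        have := h t; have := nn t p₀ p₁; have := nn t p₁ p₂; have := nn t p₂ p₃
        have := nn t p₃ p₀; omega)
      refine ⟨h1.symm, ?_, ?_⟩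
      · rw [← h2, h1]
      · rw [← h3, ← h2, h1]
    cases b₀ <;> cases b₁ <;> cases b₂ <;> cases b₃ <;>
      simp only [se, sg, Bool.false_eq_true, if_false, if_true, one_mul, neg_mul] at h ⊢
    · -- signs mmmm
      obtain ⟨rfl, rfl, rfl⟩ := all (fun t => by have := h t; omega)
      simp [e_self]
    · -- signs mmmp
      have h1 := coreC cs p₃ p₂ p₁ p₀ (fun t => by
        have := h t
        rw [sp_comm cs t p₃ p₂, sp_comm cs t p₂ p₁, sp_comm cs t p₁ p₀]; omega)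
      rw [← h1]; group
    · -- signs mmpm
      have h1 := coreC cs p₂ p₁ p₀ p₃ (fun t => by
        have := h t
        rw [sp_comm cs t p₂ p₁, sp_comm cs t p₁ p₀, sp_comm cs t p₀ p₃]; omega)
      rw [← h1]; group
    · -- signs mmpp
      have h1 := hB p₂ p₃ p₀ p₁ (fun t => by
        have := h t
        rw [sp_comm cs t p₂ p₁, sp_comm cs t p₁ p₀]; omega)
      calc (e cs p₁ p₀)⁻¹ * (e cs p₂ p₁)⁻¹ * e cs p₂ p₃ * e cs p₃ p₀ =
          (e cs p₁ p₀)⁻¹ * (e cs p₂ p₁)⁻¹ * (e cs p₂ p₃ * e cs p₃ p₀) := by group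
        _ = 1 := by rw [h1]; group
    · -- signs mpmm
      have h1 := coreC cs p₁ p₀ p₃ p₂ (fun t => by
        have := h t
        rw [sp_comm cs t p₁ p₀, sp_comm cs t p₀ p₃, sp_comm cs t p₃ p₂]; omega)
      rw [← h1]; group
    · -- signs mpmp
      have h1 := hA p₁ p₂ p₃ p₀ (fun t => by
        have := h t
        rw [sp_comm cs t p₃ p₂, sp_comm cs t p₁ p₀]; omega)
      have h2 : (e cs p₁ p₀)⁻¹ * e cs p₁ p₂ * (e cs p₃ p₂)⁻¹ * e cs p₃ p₀ =
          (e cs p₁ p₀)⁻¹ * (e cs p₁ p₂ * (e cs p₃ p₂)⁻¹ * e cs p₃ p₀ * (e cs p₁ p₀)⁻¹) *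
            e cs p₁ p₀ := by group
      rw [h2, h1]; group
    · -- signs mppm
      have h1 := hB p₁ p₂ p₃ p₀ (fun t => by
        have := h t
        rw [sp_comm cs t p₁ p₀, sp_comm cs t p₀ p₃]; omega)
      calc (e cs p₁ p₀)⁻¹ * e cs p₁ p₂ * e cs p₂ p₃ * (e cs p₀ p₃)⁻¹ =
          (e cs p₁ p₀)⁻¹ * (e cs p₁ p₂ * e cs p₂ p₃) * (e cs p₀ p₃)⁻¹ := by group
        _ = 1 := by rw [h1]; group
    · -- signs mppp
      have h1 := coreC cs p₁ p₂ p₃ p₀ (fun t => by
        have := h t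
        rw [sp_comm cs t p₁ p₀]; omega)
      rw [← h1]; group
    · -- signs pmmm
      have h1 := coreC cs p₀ p₃ p₂ p₁ (fun t => by
        have := h t
        rw [sp_comm cs t p₀ p₃, sp_comm cs t p₃ p₂, sp_comm cs t p₂ p₁]; omega)
      rw [← h1]; group
    · -- signs pmmp
      have h1 := hB p₃ p₀ p₁ p₂ (fun t => by
        have := h t
        rw [sp_comm cs t p₃ p₂, sp_comm cs t p₂ p₁]; omega)
      have h2 : e cs p₀ p₁ * (e cs p₂ p₁)⁻¹ * (e cs p₃ p₂)⁻¹ * e cs p₃ p₀ =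
          (e cs p₃ p₀)⁻¹ * ((e cs p₃ p₀ * e cs p₀ p₁) * (e cs p₂ p₁)⁻¹ * (e cs p₃ p₂)⁻¹) *
            e cs p₃ p₀ := by group
      rw [h2, h1]; group
    · -- signs pmpm
      exact hA p₀ p₁ p₂ p₃ (fun t => by
        have := h t
        rw [sp_comm cs t p₂ p₁, sp_comm cs t p₀ p₃]; omega)
    · -- signs pmpp
      have h1 := coreC cs p₂ p₃ p₀ p₁ (fun t => by
        have := h t
        rw [sp_comm cs t p₂ p₁]; omega)
      rw [← h1]; group
    · -- signs ppmm
      have h1 := hB p₀ p₁ p₂ p₃ (fun t => by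
        have := h t
        rw [sp_comm cs t p₀ p₃, sp_comm cs t p₃ p₂]; omega)
      rw [h1]; group
    · -- signs ppmp
      have h1 := coreC cs p₃ p₀ p₁ p₂ (fun t => by
        have := h t
        rw [sp_comm cs t p₃ p₂]; omega)
      rw [← h1]; group
    · -- signs pppm
      have h1 := coreC cs p₀ p₁ p₂ p₃ (fun t => by
        have := h t
        rw [sp_comm cs t p₀ p₃]; omega)
      rw [← h1]; group
    · -- signs pppp
      obtain ⟨rfl, rfl, rfl⟩ := all h
      simp [e_self]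

end Pool.Agent.H42.FS
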