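import Pool.Agent.H42.FS.Core

/-!
Central crosses: equal fractions of simple elements.
-/

set_option autoImplicit false
set_option linter.unusedSectionVars false

namespace Pool.Agent.H42.FS

open Pool.Agent.Helper741 CoxeterSystem TExt

variable {B : Type*} {M : CoxeterMatrix B} [Fintype B] [DecidableEq B]
variable {W : Type*} [Group W] (cs : CoxeterSystem M W)

/-- a step that comes closer to both base points -/
def Down (p p' q q' : W) : Prop :=
  ∃ s : B, q' = q * cs.simple s ∧ cs.length (p⁻¹ * q') < cs.length (p⁻¹ * q) ∧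
    cs.length (p'⁻¹ * q') < cs.length (p'⁻¹ * q)

/-- descending steps -/
def Downs (p p' : W) : W → W → Prop := Relation.ReflTransGen (Down cs p p')

lemma wordProd_aw_comm (s t : B) : cs.wordProd (aw s t (M s t)) = cs.wordProd (aw t s (M s t)) := by
  rw [wordProd_aw, wordProd_aw, alt_comm_of_pow (cs.simple_mul_simple_self s)
    (cs.simple_mul_simple_self t) (cs.simple_mul_simple_pow s t)]

/-- two left descents: all prefixes of the dihedral word come off -/
lemma front_length (w : W) (s t : B) (hst : s ≠ t)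
    (hs : cs.length (cs.simple s * w) < cs.length w)
    (ht : cs.length (cs.simple t * w) < cs.length w) :
    M s t ≠ 0 ∧ ∀ j ≤ M s t, cs.length ((cs.wordProd (aw s t j))⁻¹ * w) + j = cs.length w := by
  have h0 : M s t ≠ 0 := by
    intro h0
    obtain ⟨u, hu1, hu2⟩ := exists_aw_front cs w (cs.length w + 1) s t hst (Or.inl h0) hs ht
    have h2 := hu1.eq
    rw [hu2, List.length_append, aw_length] at h2
    omega
  refine ⟨h0, fun j hj => ?_⟩
  obtain ⟨u, hu1, hu2⟩ := exists_aw_front cs w j s t hst (Or.inr hj) hs ht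
  have h3 : (cs.wordProd (aw s t j))⁻¹ * w = cs.wordProd u := by
    rw [← hu2, cs.wordProd_append]; group
  have h4 : cs.IsReduced u := by simpa using hu1.drop j
  rw [h3, h4.eq, ← hu2, hu1.eq, List.length_append, aw_length]
  omega

lemma aw_succ' (s t : B) (j : ℕ) : ∃ r : B, cs.wordProd (aw s t (j + 1)) =
    cs.wordProd (aw s t j) * cs.simple r := by
  rw [wordProd_aw, wordProd_aw, alt_succ']
  by_cases h : Even j
  · exact ⟨s, by rw [if_pos h]⟩
  · exact ⟨t, by rw [if_neg h]⟩

lemma length_flip (p q x : W) : cs.length (p⁻¹ * (q * x)) = cs.length (x⁻¹ * (q⁻¹ * p)) := by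
  rw [← cs.length_inv]
  congr 1
  group

lemma downs_aw (p p' q : W) (s t : B) (hst : s ≠ t)
    (hs : cs.length (p⁻¹ * (q * cs.simple s)) < cs.length (p⁻¹ * q))
    (ht : cs.length (p⁻¹ * (q * cs.simple t)) < cs.length (p⁻¹ * q))
    (hs' : cs.length (p'⁻¹ * (q * cs.simple s)) < cs.length (p'⁻¹ * q))
    (ht' : cs.length (p'⁻¹ * (q * cs.simple t)) < cs.length (p'⁻¹ * q)) :
    M s t ≠ 0 ∧ Downs cs p p' (q * cs.simple s) (q * cs.wordProd (aw s t (M s t))) := by
  have flip0 : ∀ r : W, cs.length (r⁻¹ * q) = cs.length (q⁻¹ * r) := by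
    intro r
    rw [← cs.length_inv]
    congr 1
    group
  rw [length_flip, cs.inv_simple, flip0] at hs ht hs' ht'
  obtain ⟨h0, h1⟩ := front_length cs (q⁻¹ * p) s t hst hs ht
  obtain ⟨-, h2⟩ := front_length cs (q⁻¹ * p') s t hst hs' ht'
  refine ⟨h0, ?_⟩
  have key : ∀ j, j + 1 ≤ M s t →
      Downs cs p p' (q * cs.simple s) (q * cs.wordProd (aw s t (j + 1))) := by
    intro j
    induction j with
    | zero =>
      intro _
      have : cs.wordProd (aw s t (0 + 1)) = cs.simple s := by simp [aw]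
      rw [this]
      exact Relation.ReflTransGen.refl
    | succ j ih =>
      intro hj
      refine Relation.ReflTransGen.tail (ih (by omega)) ?_
      obtain ⟨r, hr⟩ := aw_succ' cs s t (j + 1)
      refine ⟨r, by rw [hr, mul_assoc], ?_, ?_⟩
      · have := length_flip cs p q (cs.wordProd (aw s t (j + 1)))
        have := length_flip cs p q (cs.wordProd (aw s t (j + 1 + 1)))
        have := h1 (j + 1) (by omega)
        have := h1 (j + 1 + 1) (by omega)
        omega
      · have := length_flip cs p' q (cs.wordProd (aw s t (j + 1)))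
        have := length_flip cs p' q (cs.wordProd (aw s t (j + 1 + 1)))
        have := h2 (j + 1) (by omega)
        have := h2 (j + 1 + 1) (by omega)
        omega
  obtain ⟨m, hm⟩ : ∃ m, M s t = m + 1 := ⟨M s t - 1, by omega⟩
  rw [hm]
  exact key m (by omega)

lemma local_confluence (p p' q a b : W) (ha : Down cs p p' q a) (hb : Down cs p p' q b) :
    ∃ c, Downs cs p p' a c ∧ Downs cs p p' b c := by
  obtain ⟨s, rfl, hs, hs'⟩ := ha
  obtain ⟨t, rfl, ht, ht'⟩ := hb
  by_cases hst : s = t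
  · subst hst
    exact ⟨_, Relation.ReflTransGen.refl, Relation.ReflTransGen.refl⟩
  · obtain ⟨-, h1⟩ := downs_aw cs p p' q s t hst hs ht hs' ht'
    obtain ⟨-, h2⟩ := downs_aw cs p p' q t s (Ne.symm hst) ht hs ht' hs'
    rw [M.symmetric t s, ← wordProd_aw_comm] at h2
    exact ⟨_, h1, h2⟩

lemma confluence (p p' : W) (n : ℕ) : ∀ q a b : W, cs.length (p⁻¹ * q) = n →
    Downs cs p p' q a → Downs cs p p' q b → ∃ c, Downs cs p p' a c ∧ Downs cs p p' b c := by
  induction n using Nat.strong_induction_on with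
  | _ n ih =>
  intro q a b hn ha hb
  rcases Relation.ReflTransGen.cases_head ha with rfl | ⟨a₁, ha₁, ha₂⟩
  · exact ⟨b, hb, Relation.ReflTransGen.refl⟩
  rcases Relation.ReflTransGen.cases_head hb with rfl | ⟨b₁, hb₁, hb₂⟩
  · exact ⟨a, Relation.ReflTransGen.refl, Relation.ReflTransGen.head ha₁ ha₂⟩
  obtain ⟨c, hc1, hc2⟩ := local_confluence cs p p' q a₁ b₁ ha₁ hb₁
  have la : cs.length (p⁻¹ * a₁) < n := by
    obtain ⟨s, -, h, -⟩ := ha₁
    omega
  have lb : cs.length (p⁻¹ * b₁) < n := by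
    obtain ⟨s, -, h, -⟩ := hb₁
    omega
  obtain ⟨d, hd1, hd2⟩ := ih _ la a₁ a c rfl ha₂ hc1
  obtain ⟨f, hf1, hf2⟩ := ih _ lb b₁ b d rfl hb₂ (hc2.trans hd2)
  exact ⟨f, hd1.trans hf2, hf1⟩

lemma length_tri (p q r : W) : cs.length (p⁻¹ * r) ≤ cs.length (p⁻¹ * q) + cs.length (q⁻¹ * r) := by
  have := cs.length_mul_le (p⁻¹ * q) (q⁻¹ * r)
  have h : p⁻¹ * q * (q⁻¹ * r) = p⁻¹ * r := by group
  rwa [h] at this

lemma downs_between (p p' q m : W) (h : Downs cs p p' q m) :
    cs.length (p⁻¹ * m) + cs.length (m⁻¹ * q) = cs.length (p⁻¹ * q) ∧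
      cs.length (p'⁻¹ * m) + cs.length (m⁻¹ * q) = cs.length (p'⁻¹ * q) := by
  induction h using Relation.ReflTransGen.head_induction_on with
  | refl => simp
  | head h1 h2 ih =>
    rename_i a c
    obtain ⟨s, rfl, h3, h4⟩ := h1
    have e1 : cs.length (m⁻¹ * a) ≤ cs.length (m⁻¹ * (a * cs.simple s)) + 1 := by
      have := cs.length_mul_le (m⁻¹ * (a * cs.simple s)) (cs.simple s)
      rw [cs.length_simple, mul_assoc, cs.simple_mul_simple_cancel_right] at this
      exact this
    have e2 := length_tri cs p m a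
    have e3 := length_tri cs p' m a
    constructor <;> omega

/-- the corner can be moved by steps that go up or down for both base points -/
lemma joinable (n : ℕ) : ∀ p₀ p₁ p₂ p₃ : W, cs.length (p₁⁻¹ * p₃) = n →
    (∀ t, sp cs t p₀ p₁ - sp cs t p₂ p₁ + sp cs t p₂ p₃ - sp cs t p₀ p₃ = 0) →
    ∃ m, Downs cs p₀ p₂ p₁ m ∧ Downs cs p₀ p₂ p₃ m := by
  induction n using Nat.strong_induction_on with
  | _ n ih =>
  intro p₀ p₁ p₂ p₃ hn h
  by_cases h13 : p₁ = p₃
  · subst h13
    exact ⟨p₁, Relation.ReflTransGen.refl, Relation.ReflTransGen.refl⟩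
  obtain ⟨s, hs, hl⟩ := exists_step cs p₁ p₃ h13
  have key : sp cs (p₃ * cs.simple s * p₃⁻¹) p₀ p₃ = sp cs (p₃ * cs.simple s * p₃⁻¹) p₂ p₃ := by
    have := h (p₃ * cs.simple s * p₃⁻¹)
    unfold sp at this hs ⊢
    split_ifs at this hs ⊢ <;> first | omega | tauto
  obtain ⟨m, hm1, hm3⟩ := ih _ (hn ▸ hl) p₀ p₁ p₂ (p₃ * cs.simple s) rfl (by
    intro t
    by_cases ht : t = p₃ * cs.simple s * p₃⁻¹
    · subst ht
      have h2 := sp_step_self cs p₀ p₃ s
      have h3 := sp_step_self cs p₂ p₃ s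
      have h4 := h (p₃ * cs.simple s * p₃⁻¹)
      omega
    · rw [sp_step cs t p₂ p₃ s ht, sp_step cs t p₀ p₃ s ht]
      exact h t)
  have l0 := length_iff cs p₀ p₃ s
  have l2 := length_iff cs p₂ p₃ s
  have m0 := cs.length_mul_simple (p₀⁻¹ * p₃) s
  have m2 := cs.length_mul_simple (p₂⁻¹ * p₃) s
  by_cases h0 : sp cs (p₃ * cs.simple s * p₃⁻¹) p₀ p₃ = 0
  · -- up for both
    have u0 := l0.mpr h0
    have u2 := l2.mpr (by rw [← key, h0])
    have hd : Down cs p₀ p₂ (p₃ * cs.simple s) p₃ := by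
      refine ⟨s, by rw [cs.simple_mul_simple_cancel_right], ?_, ?_⟩
      · rw [← mul_assoc]; exact u0
      · rw [← mul_assoc]; exact u2
    obtain ⟨c, hc1, hc2⟩ := confluence cs p₀ p₂ _ (p₃ * cs.simple s) m p₃ rfl hm3
      (Relation.ReflTransGen.single hd)
    exact ⟨c, hm1.trans hc1, hc2⟩
  · -- down for both
    have u0 : ¬ cs.length (p₀⁻¹ * p₃) < cs.length (p₀⁻¹ * p₃ * cs.simple s) := fun hh => h0 (l0.mp hh)
    have u2 : ¬ cs.length (p₂⁻¹ * p₃) < cs.length (p₂⁻¹ * p₃ * cs.simple s) :=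
      fun hh => h0 (by rw [key]; exact l2.mp hh)
    have hd : Down cs p₀ p₂ p₃ (p₃ * cs.simple s) := by
      refine ⟨s, rfl, ?_, ?_⟩
      · rw [← mul_assoc]; omega
      · rw [← mul_assoc]; omega
    exact ⟨m, hm1, Relation.ReflTransGen.head hd hm3⟩

lemma sec_mul_of_length (a b : W) (h : cs.length (a * b) = cs.length a + cs.length b) :
    sec cs (a * b) = sec cs a * sec cs b := by
  have h1 : cs.IsReduced (rword cs a ++ rword cs b) := by
    unfold CoxeterSystem.IsReduced
    rw [cs.wordProd_append, rword_prod, rword_prod, h, List.length_append, rword_length,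
      rword_length]
  have h2 := sec_eq cs _ h1
  rw [cs.wordProd_append, rword_prod, rword_prod, List.map_append, List.prod_append] at h2
  exact h2

/-- **Central crosses.** -/
theorem cross (u v w x : W) :
    sec cs u * (sec cs v)⁻¹ = sec cs w * (sec cs x)⁻¹ ↔
      ∃ a b c d : W,
        (u = a * b ∧ cs.length u = cs.length a + cs.length b) ∧
        (v = c * b ∧ cs.length v = cs.length c + cs.length b) ∧
        (w = a * d ∧ cs.length w = cs.length a + cs.length d) ∧
        (x = c * d ∧ cs.length x = cs.length c + cs.length d) := by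
  constructor
  · intro h
    have hW : u * v⁻¹ = w * x⁻¹ := by
      have := congrArg (Artin.toCox cs) h
      simpa [toCox_sec] using this
    have hp1 : (u * v⁻¹)⁻¹ * u = v := by group
    have hp3 : (u * v⁻¹)⁻¹ * w = x := by rw [hW]; group
    have h1 : se cs true 1 u * se cs false u (u * v⁻¹) * se cs true (u * v⁻¹) w *
        se cs false w 1 = 1 := by
      simp only [se, e, if_true, Bool.false_eq_true, if_false, hp1, hp3, inv_one, one_mul]
      rw [h]
      group
    have h2 := (polygon cs true false true false 1 u (u * v⁻¹) w).mp h1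
    obtain ⟨m, hm1, hm3⟩ := joinable cs _ 1 u (u * v⁻¹) w rfl (fun t => by
      have := h2 t
      simp only [sg, if_true, Bool.false_eq_true, if_false, one_mul, neg_mul] at this
      rw [sp_comm cs t (u * v⁻¹) u, sp_comm cs t 1 w]
      omega)
    obtain ⟨k1, k2⟩ := downs_between cs _ _ _ _ hm1
    obtain ⟨k3, k4⟩ := downs_between cs _ _ _ _ hm3
    rw [inv_one, one_mul, one_mul] at k1 k3
    rw [hp1] at k2
    rw [hp3] at k4
    refine ⟨m, m⁻¹ * u, (u * v⁻¹)⁻¹ * m, m⁻¹ * w, ⟨by group, by omega⟩, ⟨?_, by omega⟩,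
      ⟨by group, by omega⟩, ⟨?_, by omega⟩⟩
    · rw [← hp1]; group
    · rw [← hp3]; group
  · rintro ⟨a, b, c, d, ⟨rfl, h1⟩, ⟨rfl, h2⟩, ⟨rfl, h3⟩, ⟨rfl, h4⟩⟩
    rw [sec_mul_of_length cs a b h1, sec_mul_of_length cs c b h2, sec_mul_of_length cs a d h3,
      sec_mul_of_length cs c d h4]
    group

end Pool.Agent.H42.FS
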